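import Pool.Agent.DPL.StmtsA
import Pool.Agent.Helper59_DPS.All

/-!
Squad DPL, row PLY: the Gram form of `wf` is a polynomial in `Y`.
-/

set_option autoImplicit false

namespace Pool.Agent.DPL.H92

open Finset Polynomial Pool.Agent.DPS Pool.Agent.DPL

theorem M_eq (n k i : ℕ) (f : KS n k → ℝ) (F : KS n k) :
    M n k i f F = ∑ G : KS n k, (((F.1 ∩ G.1).card.choose i : ℕ) : ℝ) * f G := by
  change ∑ R ∈ powersetCard i (univ : Finset (Fin n)), (if R ⊆ F.1 then (1 : ℝ) else 0) * dg f R = _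
  simp only [dg, Finset.mul_sum]
  rw [Finset.sum_comm]
  refine Finset.sum_congr rfl fun G _ => ?_
  have h1 : ∀ R : Finset (Fin n), (if R ⊆ F.1 then (1 : ℝ) else 0) * (if R ⊆ G.1 then f G else 0) =
      (if R ⊆ F.1 ∩ G.1 then f G else 0) := by
    intro R
    by_cases h1 : R ⊆ F.1
    · by_cases h2 : R ⊆ G.1
      · simp [Finset.subset_inter_iff, h1, h2]
      · simp [Finset.subset_inter_iff, h1, h2]
    · simp [Finset.subset_inter_iff, h1]
  simp only [h1]
  rw [← Finset.sum_filter, Finset.sum_const, nsmul_eq_mul, ← Finset.card_powersetCard]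
  congr 3
  ext R
  simp only [Finset.mem_filter, Finset.mem_powersetCard, Finset.subset_univ, true_and]
  exact and_comm

/-- the Gram matrix -/
noncomputable def gram {n : ℕ} (r : ℕ) (L : ℕ → ℝ) (F G : Finset (Fin n)) : ℝ :=
  ∑ R ∈ powersetCard r (univ : Finset (Fin n)), L (R \ F).card * L (R \ G).card

theorem gram_map {n : ℕ} (r : ℕ) (L : ℕ → ℝ) (σ : Equiv.Perm (Fin n)) (F G : Finset (Fin n)) :
    gram r L (F.map σ.toEmbedding) (G.map σ.toEmbedding) = gram r L F G := by
  unfold gram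
  symm
  have h : ∀ R S : Finset (Fin n), (R.map σ.toEmbedding \ S.map σ.toEmbedding).card =
      (R \ S).card := by
    intro R S
    rw [← Finset.map_sdiff, Finset.card_map]
  apply Finset.sum_bij (fun R _ => R.map σ.toEmbedding)
  · intro R hR
    rw [Finset.mem_powersetCard] at hR ⊢
    exact ⟨Finset.subset_univ _, by rw [Finset.card_map]; exact hR.2⟩
  · intro R _ S _ hRS
    exact Finset.map_injective _ hRS
  · intro S hS
    refine ⟨S.map σ.symm.toEmbedding, ?_, ?_⟩
    · rw [Finset.mem_powersetCard] at hS ⊢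
      exact ⟨Finset.subset_univ _, by rw [Finset.card_map]; exact hS.2⟩
    · ext x
      simp
  · intro R _
    rw [h, h]

theorem gram_eq (hP : PRMStmt) (n k r : ℕ) (L : ℕ → ℝ) :
    ∃ h : ℕ → ℝ, ∀ F G : KS n k, gram r L F.1 G.1 = h (F.1 ∩ G.1).card := by
  classical
  refine ⟨fun x => if hx : ∃ p : KS n k × KS n k, (p.1.1 ∩ p.2.1).card = x then
    gram r L (Classical.choose hx).1.1 (Classical.choose hx).2.1 else 0, fun F G => ?_⟩
  have hx : ∃ p : KS n k × KS n k, (p.1.1 ∩ p.2.1).card = (F.1 ∩ G.1).card := ⟨(F, G), rfl⟩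
  change _ = dite _ _ _
  rw [dif_pos hx]
  obtain ⟨σ, h1, h2⟩ := hP n k F G (Classical.choose hx).1 (Classical.choose hx).2
    (Classical.choose_spec hx).symm
  rw [← h1, ← h2, gram_map]

theorem newton (h : ℕ → ℝ) (k : ℕ) : ∃ b : ℕ → ℝ, ∀ x, x ≤ k →
    h x = ∑ i ∈ range (k + 1), b i * ((x.choose i : ℕ) : ℝ) := by
  refine ⟨fun i => (fwdDiff 1)^[i] h 0, fun x hx => ?_⟩
  have h1 := shift_eq_sum_fwdDiff_iter 1 h x 0
  simp only [smul_eq_mul, mul_one, zero_add, nsmul_eq_mul] at h1
  rw [h1]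
  rw [← Finset.sum_subset (Finset.range_mono (Nat.succ_le_succ hx))]
  · refine Finset.sum_congr rfl fun i _ => ?_
    exact mul_comm _ _
  · intro i _ hi
    rw [Finset.mem_range, not_lt] at hi
    rw [Nat.choose_eq_zero_of_lt (by omega), Nat.cast_zero, mul_zero]

theorem ply (hP : PRMStmt) : PLYStmt := by
  intro n k r L
  obtain ⟨h, hh⟩ := gram_eq hP n k r L
  obtain ⟨b, hb⟩ := newton h k
  refine ⟨∑ i ∈ range (k + 1), C (b i) * mp n k i, fun f => ?_⟩
  have e1 : ∑ R ∈ powersetCard r (univ : Finset (Fin n)), wf L f R ^ 2 =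
      ∑ F : KS n k, ∑ G : KS n k, f F * (gram r L F.1 G.1 * f G) := by
    simp only [wf, sq, Finset.sum_mul_sum, gram]
    rw [Finset.sum_comm]
    refine Finset.sum_congr rfl fun F _ => ?_
    rw [Finset.sum_comm]
    refine Finset.sum_congr rfl fun G _ => ?_
    rw [Finset.sum_mul, Finset.mul_sum]
    refine Finset.sum_congr rfl fun R _ => ?_
    ring
  have e2 : ∀ F : KS n k, aeval (Y n k) (∑ i ∈ range (k + 1), C (b i) * mp n k i) f F =
      ∑ i ∈ range (k + 1), b i * M n k i f F := by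
    intro F
    rw [map_sum, LinearMap.sum_apply, Finset.sum_apply]
    refine Finset.sum_congr rfl fun i hi => ?_
    rw [Finset.mem_range] at hi
    rw [map_mul, aeval_C, H59.mpo' n k i (by omega), Module.algebraMap_end_eq_smul_id,
      Module.End.mul_apply, LinearMap.smul_apply, LinearMap.id_apply]
    rfl
  rw [e1, ip]
  refine Finset.sum_congr rfl fun F _ => ?_
  rw [← Finset.mul_sum]
  congr 1
  rw [e2 F]
  simp only [M_eq, Finset.mul_sum]
  rw [Finset.sum_comm]
  refine Finset.sum_congr rfl fun G _ => ?_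
  have hle : (F.1 ∩ G.1).card ≤ k := by
    have := Finset.card_le_card (Finset.inter_subset_left (s₁ := F.1) (s₂ := G.1))
    rw [F.2] at this
    exact this
  rw [hh F G, hb _ hle, Finset.sum_mul]
  refine Finset.sum_congr rfl fun i _ => ?_
  ring

end Pool.Agent.DPL.H92
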